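import Pool.Agent.H820R3.BSDN.G10

/-!
# Prime power sums at the centre: the order of vanishing and the leading coefficient as limits

Let `α_{v,j}`, `1 ≤ j ≤ d`, `v` a prime of the number field `K` with norm `q_v`, be complex numbers with
`|α_{v,j}| ≤ q_v^(i + 1/2)` and real power sums for every `v` (by Deligne the eigenvalues of Frobenius on
`H^(2i+1)(X)` for a smooth projective variety `X` over `K` and the places of good reduction, and `0`
at the other places). Let `G` be the entire continuation of the Euler product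
`∏_v ∏_j (1 - α_{v,j} q_v^(-s))⁻¹`, of polynomial growth in `Re s ≥ i + 1`, `m` its order of
vanishing at the central point `i + 1`, `l = lim G(s) / (s - (i + 1)) ^ m`, and `SP(n)` the sum of
`(∑_j α_{v,j}^k) / (k q_v^(k (i + 1)))` over `k ≥ 1` and `v` with `q_v^k ≤ n`. Let `LS` be
the logarithmic averages of `-SP(n) - κ log log n`. Then for every real `κ` the following are
equivalent:

1. `G(s) ≠ 0` for `Re s > i + 1`, and `κ = m`;
2. `κ ≤ m` and `LS` is bounded above;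
3. `LS` converges;
4. `LS` converges to `κ γ - log |l|`.

Moreover for `Λ > 0` the averages `LS` converge to `κ γ - log Λ` if and only if `G(s) ≠ 0` for
`Re s > i + 1`, `κ = m` and `|l| = Λ`.

The second part is the same statement for `H^(2i+1)(C^n)`, `C : y² = f(x)` over `ℚ`, where the Euler
factors are defined by the numbers of points of `C` over finite fields.
-/

set_option autoImplicit false

open NumberField IsDedekindDomain Filter Topology

namespace Pool.Agent.Results.MP_6dc9d1_nt.CentralPowerSums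

open Pool.Agent.H820R3.BSDN
open Pool.Agent.H438R3.BSD

/-- See the introduction. -/
theorem result :
    (∀ (K : Type) [Field K] [NumberField K] (i d : ℕ)
      (α : HeightOneSpectrum (𝓞 K) → Fin d → ℂ) (_h : Mot.Sys i d α) (G : ℂ → ℂ)
      (_hG : Mot.IsL i d α G)
      (_hgr : ∃ C N : ℝ, ∀ s : ℂ, (i : ℝ) + 1 ≤ s.re → ‖G s‖ ≤ C * (1 + ‖s‖) ^ N),
      ∃ (m : ℕ) (l : ℂ), analyticOrderAt G (i + 1) = m ∧ l ≠ 0 ∧
        Tendsto (fun s : ℂ => G s / (s - (i + 1)) ^ m) (𝓝[≠] ((i : ℂ) + 1)) (𝓝 l) ∧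
        (∀ κ : ℝ, List.TFAE [
          (∀ s : ℂ, (i : ℝ) + 1 < s.re → G s ≠ 0) ∧ κ = m,
          κ ≤ m ∧ ∃ C : ℝ, ∀ n : ℕ, Mot.LS i d α κ n ≤ C,
          ∃ t : ℝ, Tendsto (fun n : ℕ => Mot.LS i d α κ n) atTop (𝓝 t),
          Tendsto (fun n : ℕ => Mot.LS i d α κ n) atTop
            (𝓝 (κ * Real.eulerMascheroniConstant - Real.log ‖l‖))]) ∧
        ∀ κ Λ : ℝ, 0 < Λ →
          (((∀ s : ℂ, (i : ℝ) + 1 < s.re → G s ≠ 0) ∧ κ = m ∧ ‖l‖ = Λ) ↔
            Tendsto (fun n : ℕ => Mot.LS i d α κ n) atTop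
              (𝓝 (κ * Real.eulerMascheroniConstant - Real.log Λ)))) ∧
    (∀ (f : Polynomial ℤ) (_hd : 1 ≤ f.natDegree) (n i : ℕ) (G : ℂ → ℂ) (_hG : Bei.IsL f n i G)
      (_hgr : ∃ C N : ℝ, ∀ s : ℂ, (i : ℝ) + 1 ≤ s.re → ‖G s‖ ≤ C * (1 + ‖s‖) ^ N),
      ∃ (m : ℕ) (l : ℂ), analyticOrderAt G (i + 1) = m ∧ l ≠ 0 ∧
        Tendsto (fun s : ℂ => G s / (s - (i + 1)) ^ m) (𝓝[≠] ((i : ℂ) + 1)) (𝓝 l) ∧
        (∀ κ : ℝ, List.TFAE [
          (∀ s : ℂ, (i : ℝ) + 1 < s.re → G s ≠ 0) ∧ κ = m,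
          κ ≤ m ∧ ∃ C : ℝ, ∀ x : ℕ, Hyper.LS f n i κ x ≤ C,
          ∃ t : ℝ, Tendsto (fun x : ℕ => Hyper.LS f n i κ x) atTop (𝓝 t),
          Tendsto (fun x : ℕ => Hyper.LS f n i κ x) atTop
            (𝓝 (κ * Real.eulerMascheroniConstant - Real.log ‖l‖))]) ∧
        ∀ κ Λ : ℝ, 0 < Λ →
          (((∀ s : ℂ, (i : ℝ) + 1 < s.re → G s ≠ 0) ∧ κ = m ∧ ‖l‖ = Λ) ↔
            Tendsto (fun x : ℕ => Hyper.LS f n i κ x) atTop
              (𝓝 (κ * Real.eulerMascheroniConstant - Real.log Λ)))) := by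
  refine ⟨fun K _ _ i d α h G hG hgr => ?_, fun f hd n i G hG hgr => ?_⟩
  · obtain ⟨m, l, h1, h2, h3, h4, h5⟩ := Mot.equivM h hG hgr
    refine ⟨m, l, h1, h2, h3, fun κ => ?_, h5⟩
    have H := h4 κ
    tfae_have 1 ↔ 2 := H.out 0 3
    tfae_have 1 ↔ 3 := H.out 0 4
    tfae_have 1 ↔ 4 := H.out 0 5
    tfae_finish
  · obtain ⟨m, l, h1, h2, h3, h4, h5⟩ := Hyper.equivB f hd n i hG hgr
    refine ⟨m, l, h1, h2, h3, fun κ => ?_, h5⟩
    have H := h4 κ
    tfae_have 1 ↔ 2 := H.out 0 3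
    tfae_have 1 ↔ 3 := H.out 0 4
    tfae_have 1 ↔ 4 := H.out 0 5
    tfae_finish

end Pool.Agent.Results.MP_6dc9d1_nt.CentralPowerSums
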