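import Pool.Agent.H438R3.BSD.Bei

/-!
# Partial Euler products at the centre for the odd cohomology of powers of hyperelliptic curves

Let `C : y² = f(x)` be a hyperelliptic (or elliptic) curve over `ℚ`, `1 ≤ i`, and `G` the
entire continuation of the (incomplete) `L`-function of `H^(2 i + 1)(C^n)`, whose central point is
`s = i + 1`; the conjecture of Beilinson concerns `n = 2 i + 1` (and `i = 0`, not treated here, is the
conjecture of Birch and Swinnerton-Dyer). Let `m = ord_{s = i + 1} G` and
`EP(x)` the product over the good primes `p ≤ x` of the inverse Euler factors at `s = i + 1`. Then: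

1. for every `κ < m` the logarithmic averages of `log EP(k) - κ log log k` (hence these numbers
themselves) are unbounded above; if `G` has a zero with `Re s > i + 1`, this holds for all `κ`;

2. if `G` has no real zero greater than `i + 1`, then for every `κ > m` these averages are
unbounded below; if moreover it has some zero with `Re s > i + 1`, this holds for all `κ`.

The square root bound for the numbers of points of the curve over finite fields is from the starting
file `Pool/Agent/H341R2/CurveFacts.lean`.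
-/

set_option autoImplicit false

open Filter

namespace Pool.Agent.Results.MP_6dc9d1_nt.CentralProducts

open Pool.Agent.H438R3.BSD.Bei

/-- See the introduction. -/
theorem result (f : Polynomial ℤ) (hd : 1 ≤ f.natDegree) (n i : ℕ) (_hi : 1 ≤ i) (G : ℂ → ℂ)
    (hG : IsL f n i G) :
    ∃ m : ℕ, analyticOrderAt G (i + 1) = m ∧
    (∀ κ : ℝ, (κ < m ∨ ∃ ρ : ℂ, (i : ℝ) + 1 < ρ.re ∧ G ρ = 0) → ∀ C : ℝ,
      (∃ᶠ x : ℕ in atTop, C < LA f n i κ x) ∧
      ∃ᶠ x : ℕ in atTop, C * Real.log x ^ κ < EP f n i x) ∧
    ((∀ σ : ℝ, (i : ℝ) + 1 < σ → G σ ≠ 0) →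
      ∀ κ : ℝ, ((m : ℝ) < κ ∨ ∃ ρ : ℂ, (i : ℝ) + 1 < ρ.re ∧ G ρ = 0) → ∀ C : ℝ, 0 < C →
      (∃ᶠ x : ℕ in atTop, LA f n i κ x < -C) ∧
      ∃ᶠ x : ℕ in atTop, EP f n i x < C * Real.log x ^ κ) :=
  main f hd n i hG

end Pool.Agent.Results.MP_6dc9d1_nt.CentralProducts
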